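import Pool.Agent.Helper5.BD.Defs

/-!
# MP_79ec0d_co, BoundedDegeneracy, module C11 (assembly of the first half)
-/

noncomputable section

open Finset Helper5.CR Classical

namespace Helper5.BD

variable {V E X : Type} [Fintype V] [Fintype E] [Fintype X] {C : CSys V E X} {d : ℕ}

/-! ## Module C11 -/
section C11

private theorem C11_sum_j (O : Ori C d) :
    ∑ x, (univ.filter (fun e => O.jn x e)).card = ∑ e, O.cj e := by
  unfold Ori.cj
  simp only [Finset.card_filter]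
  exact Finset.sum_comm

private theorem C11_cnt (p : X → Prop) : ∑ x, (if p x then 1 else 0) = Ori.cnt p := by
  unfold Ori.cnt
  rw [Finset.card_filter]

private theorem C11_nat (O : Ori C d)
    (h4 : ∀ x, (univ.filter (fun e => O.jn x e)).card ≤ 4)
    (hcl : ∀ x, ¬ O.N1 x → ¬ O.N2 x → ¬ O.G2 x → ¬ O.T x →
      (univ.filter (fun e => O.jn x e)).card ≤ 1 ∨
      (O.AB x ∧ (univ.filter (fun e => O.jn x e)).card ≤ 2)) :
    ∑ e, O.cj e ≤ Fintype.card X + Ori.cnt (fun x => O.AB x) +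
      3 * (Ori.cnt (fun x => O.N1 x) + Ori.cnt (fun x => O.N2 x) + Ori.cnt (fun x => O.G2 x) +
        Ori.cnt (fun x => O.T x)) := by
  have hx : ∀ x, (univ.filter (fun e => O.jn x e)).card ≤ 1 + (if O.AB x then 1 else 0) +
      3 * ((if O.N1 x then 1 else 0) + (if O.N2 x then 1 else 0) + (if O.G2 x then 1 else 0) +
        (if O.T x then 1 else 0)) := by
    intro x
    have h := h4 x
    by_cases h1 : O.N1 x
    · rw [if_pos h1]; omega
    by_cases h2 : O.N2 x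
    · rw [if_pos h2]; omega
    by_cases h3 : O.G2 x
    · rw [if_pos h3]; omega
    by_cases h5 : O.T x
    · rw [if_pos h5]; omega
    rcases hcl x h1 h2 h3 h5 with h6 | ⟨h6, h7⟩
    · omega
    · rw [if_pos h6]; omega
  rw [← C11_sum_j]
  refine (Finset.sum_le_sum (fun x _ => hx x)).trans (le_of_eq ?_)
  rw [Finset.sum_add_distrib, Finset.sum_add_distrib, ← Finset.mul_sum, Finset.sum_add_distrib,
    Finset.sum_add_distrib, Finset.sum_add_distrib, C11_cnt, C11_cnt, C11_cnt, C11_cnt, C11_cnt]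
  simp

/-- C11 (assembly of the first half). -/
theorem AB_large (O : Ori C d) (τ a κ : ℝ) (p : ℕ) (hf : O.Flat τ)
    (ha : ((∑ f ∈ O.A2 p, C.k f : ℕ) : ℝ) ≤ a * Fintype.card X)
    (hm : (Fintype.card E : ℝ) ≤ κ * Fintype.card X)
    (hsmall : κ * (30 * d ^ 2 + 12 * p ^ 2) + τ * (19 * d + 15 * d ^ 2 + 12 * d ^ 2 * p) + 15 * a ≤
      1 / 2)
    (h4 : ∀ x, (univ.filter (fun e => O.jn x e)).card ≤ 4)
    (hcl : ∀ x, ¬ O.N1 x → ¬ O.N2 x → ¬ O.G2 x → ¬ O.T x →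
      (univ.filter (fun e => O.jn x e)).card ≤ 1 ∨
      (O.AB x ∧ (univ.filter (fun e => O.jn x e)).card ≤ 2))
    (hN1 : Ori.cnt (fun x => O.N1 x) ≤ d * d * Fintype.card E)
    (hN2 : Ori.cnt (fun x => O.N2 x) ≤ d * d * Fintype.card E)
    (hG2 : (Ori.cnt (fun x => O.G2 x) : ℝ) ≤ τ * (d * d) * Fintype.card X)
    (hG1 : (Ori.cnt (fun x => O.G1 p x) : ℝ) ≤ τ * (d * (d * p)) * Fintype.card X)
    (hABC : Ori.cnt (fun x => O.ABC x) ≤ p ^ 2 * Fintype.card E + ∑ f ∈ O.A2 p, O.cj f)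
    (hT : Ori.cnt (fun x => O.T x) ≤ ∑ f ∈ O.A2 p, O.cj f + ∑ e ∈ O.A1 p, C.k e)
    (hA1 : ∑ e ∈ O.A1 p, O.cj e ≤ 4 * (Ori.cnt (fun x => O.N1 x) + Ori.cnt (fun x => O.N2 x) +
      Ori.cnt (fun x => O.G2 x) + Ori.cnt (fun x => O.ABC x) + Ori.cnt (fun x => O.G1 p x))) :
    (Fintype.card X : ℝ) / 2 ≤ Ori.cnt (fun x => O.AB x) := by
  have hnat := C11_nat O h4 hcl
  have hU := hf.f2 univ
  have hF1 := hf.f2 (O.A1 p)
  have hF2 := hf.f2 (O.A2 p)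
  have hk : ((∑ e, C.k e : ℕ) : ℝ) = 2 * Fintype.card X := by
    rw [C.sum_k_univ]; push_cast; ring
  have hnat' : ((∑ e, O.cj e : ℕ) : ℝ) ≤ ((Fintype.card X + Ori.cnt (fun x => O.AB x) +
      3 * (Ori.cnt (fun x => O.N1 x) + Ori.cnt (fun x => O.N2 x) + Ori.cnt (fun x => O.G2 x) +
        Ori.cnt (fun x => O.T x)) : ℕ) : ℝ) := by exact_mod_cast hnat
  have hN1' : (Ori.cnt (fun x => O.N1 x) : ℝ) ≤ ((d * d * Fintype.card E : ℕ) : ℝ) := by
    exact_mod_cast hN1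
  have hN2' : (Ori.cnt (fun x => O.N2 x) : ℝ) ≤ ((d * d * Fintype.card E : ℕ) : ℝ) := by
    exact_mod_cast hN2
  have hABC' : (Ori.cnt (fun x => O.ABC x) : ℝ) ≤
      ((p ^ 2 * Fintype.card E + ∑ f ∈ O.A2 p, O.cj f : ℕ) : ℝ) := by exact_mod_cast hABC
  have hT' : (Ori.cnt (fun x => O.T x) : ℝ) ≤
      ((∑ f ∈ O.A2 p, O.cj f + ∑ e ∈ O.A1 p, C.k e : ℕ) : ℝ) := by exact_mod_cast hT
  have hA1' : ((∑ e ∈ O.A1 p, O.cj e : ℕ) : ℝ) ≤
      ((4 * (Ori.cnt (fun x => O.N1 x) + Ori.cnt (fun x => O.N2 x) +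
      Ori.cnt (fun x => O.G2 x) + Ori.cnt (fun x => O.ABC x) + Ori.cnt (fun x => O.G1 p x)) : ℕ) :
        ℝ) := by exact_mod_cast hA1
  push_cast at hk hnat' hN1' hN2' hABC' hT' hA1' ha
  have hU1 := (abs_le.1 hU).2
  have hF12 := (abs_le.1 hF1).2
  have hF21 := (abs_le.1 hF2).1
  rw [hk] at hU1
  set n : ℝ := (Fintype.card X : ℝ) with hn
  set m : ℝ := (Fintype.card E : ℝ) with hmdef
  set J2 : ℝ := ∑ f ∈ O.A2 p, (O.cj f : ℝ) with hJ2
  set K1 : ℝ := ∑ e ∈ O.A1 p, (C.k e : ℝ) with hK1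
  have hn0 : 0 ≤ n := Nat.cast_nonneg _
  have hd0 : (0 : ℝ) ≤ (d : ℝ) ^ 2 := by positivity
  have hp0 : (0 : ℝ) ≤ (p : ℝ) ^ 2 := by positivity
  have hdm : (d : ℝ) * d * m ≤ κ * d ^ 2 * n := by
    have := mul_le_mul_of_nonneg_left hm hd0
    linarith
  have hpm : (p : ℝ) ^ 2 * m ≤ κ * p ^ 2 * n := by
    have := mul_le_mul_of_nonneg_left hm hp0
    linarith
  have hs := mul_le_mul_of_nonneg_right hsmall hn0
  linarith

end C11

end Helper5.BD
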