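import Pool.Agent.Helper5.BD.GDefs
import Pool.Agent.Helper34.CR.Resolution
import Pool.Agent.Helper99.BD.GB1

/-!
# MP_79ec0d_co, BoundedDegeneracy, module GB2 (walks sharing segments)
-/

noncomputable section

open Finset Helper5.CR Classical Equiv Equiv.Perm

namespace Helper5.BD

variable {V E : Type} [Fintype E] {src tgt : E → V}

/-! ## Module GB2 -/
section GB2

private theorem GB2_walk {D X : Type} (α : Perm D) (pt : D → X) {R : ℕ} (α' : Perm (D × Fin R))
    (h : ∀ d i, α' (d, i) = (α d, Fin.rev i)) (k : Fin R) :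
    ∀ (l : List D) (x y : X), IsWalk pt α x y l →
      IsWalk (fun a : D × Fin R => pt a.1) α' x y (l.map (fun d => (d, k))) := by
  intro l
  induction l with
  | nil => intro x y hw; exact hw
  | cons d l ih =>
    intro x y hw
    obtain ⟨h1, h2⟩ := hw
    refine ⟨h1, ?_⟩
    have h3 := ih _ _ h2
    change IsWalk _ α' (pt (α' (d, k)).1) y _
    rw [h]
    exact h3

private theorem GB2_count {D Q : Type} {R : ℕ} (mk : D → Fin R → Q) (s : Q → Fin R)
    (hs : ∀ d i, s (mk d i) = i) (hmk : ∀ i, Function.Injective (fun d => mk d i))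
    (l : List D) (hl : l.Nodup) (k : Fin R) (q : Q) :
    (l.map (fun d => mk d k)).count q ≤ if k = s q then 1 else 0 := by
  split_ifs with hk
  · exact List.nodup_iff_count_le_one.1 (hl.map (hmk k)) q
  · rw [Nat.le_zero, List.count_eq_zero]
    intro hq
    obtain ⟨d, -, hd⟩ := List.mem_map.1 hq
    apply hk
    rw [← hd, hs]

private theorem GB2_use {D Q : Type} {R : ℕ} (mk : D → Fin R → Q) (s : Q → Fin R)
    (hs : ∀ d i, s (mk d i) = i) (hmk : ∀ i, Function.Injective (fun d => mk d i))
    (α' : Perm Q) (h : ∀ q, s (α' q) = Fin.rev (s q)) (hR : R = 2 * (Fintype.card E + 1))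
    (k : E → Fin R) (hk : ∀ e, (k e : ℕ) < Fintype.card E) (hki : Function.Injective k)
    (r : E → List D) (hnd : ∀ e, (r e).Nodup) (q : Q) :
    ∑ e, (((r e).map (fun d => mk d (k e))).count q +
      ((r e).map (fun d => mk d (k e))).count (α' q)) ≤ 1 := by
  have h1 : ∀ e, (((r e).map (fun d => mk d (k e))).count q +
      ((r e).map (fun d => mk d (k e))).count (α' q)) ≤
      (if k e = s q then 1 else 0) + (if k e = Fin.rev (s q) then 1 else 0) := by
    intro e
    have e1 := GB2_count mk s hs hmk (r e) (hnd e) (k e) q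
    have e2 := GB2_count mk s hs hmk (r e) (hnd e) (k e) (α' q)
    rw [h] at e2
    exact Nat.add_le_add e1 e2
  refine (Finset.sum_le_sum (fun e _ => h1 e)).trans ?_
  have h7 := (s q).isLt
  have h8 : (Fin.rev (s q) : ℕ) = R - ((s q : ℕ) + 1) := Fin.val_rev _
  by_cases hex : ∃ e₀, k e₀ = s q ∨ k e₀ = Fin.rev (s q)
  · obtain ⟨e₀, he₀⟩ := hex
    have h6 := hk e₀
    rw [Finset.sum_eq_single e₀]
    · have hne : s q ≠ Fin.rev (s q) := by
        intro hc
        have h2 : (s q : ℕ) = (Fin.rev (s q) : ℕ) := congrArg Fin.val hc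
        omega
      rcases he₀ with he | he
      · have hB : ¬ k e₀ = Fin.rev (s q) := fun hc => hne (he.symm.trans hc)
        rw [if_pos he, if_neg hB]
      · have hA : ¬ k e₀ = s q := fun hc => hne (hc.symm.trans he)
        rw [if_pos he, if_neg hA]
    · intro e _ hee
      have h4 : k e ≠ k e₀ := fun hc => hee (hki hc)
      have h5 := hk e
      have hB : ¬ k e = Fin.rev (s q) := by
        intro hc
        rcases he₀ with he | he
        · have h9 : (k e : ℕ) = (Fin.rev (s q) : ℕ) := congrArg Fin.val hc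
          have h10 : (k e₀ : ℕ) = (s q : ℕ) := congrArg Fin.val he
          omega
        · exact h4 (hc.trans he.symm)
      have hA : ¬ k e = s q := by
        intro hc
        rcases he₀ with he | he
        · exact h4 (hc.trans he.symm)
        · have h9 : (k e₀ : ℕ) = (Fin.rev (s q) : ℕ) := congrArg Fin.val he
          have h10 : (k e : ℕ) = (s q : ℕ) := congrArg Fin.val hc
          omega
      rw [if_neg hA, if_neg hB, Nat.add_zero]
    · intro hc
      exact absurd (Finset.mem_univ _) hc
  · refine (le_of_eq (Finset.sum_eq_zero (fun e _ => ?_))).trans (Nat.zero_le _)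
    have hA : ¬ k e = s q := fun hc => hex ⟨e, Or.inl hc⟩
    have hB : ¬ k e = Fin.rev (s q) := fun hc => hex ⟨e, Or.inr hc⟩
    rw [if_neg hA, if_neg hB, Nat.add_zero]

/-- GB2 (bundles).  Walks in a planar map which may use the same segments. -/
theorem bundle_bound {D X : Type} [Fintype D] [Fintype X] (σ α : Perm D)
    (hα : ∀ d, α (α d) = d) (hne : ∀ d, α d ≠ d) (hp : Planar σ α) (pt : D → X)
    (hpt : ∀ d d', pt d = pt d' ↔ σ.SameCycle d d') (loc : V → X)
    (hloc : Function.Injective loc) (r : E → List D)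
    (hw : ∀ e, IsWalk pt α (loc (src e)) (loc (tgt e)) (r e))
    (hin : ∀ e, ∀ d ∈ (r e).tail, ∀ v, pt d ≠ loc v) (hnd : ∀ e, (r e).Nodup)
    (hloop : ∀ e, ∀ d ∈ r e, pt d ≠ pt (α d)) :
    crM src tgt ≤ ∑ x : X, PreDrawing.gr (∑ e, ((r e).tail.map pt).count x) := by
  obtain ⟨σ', α', hp', hs', h⟩ := planar_thicken hp hα hne (2 * (Fintype.card E + 1)) (by omega)
  let k : E → Fin (2 * (Fintype.card E + 1)) := fun e =>
    ⟨(Fintype.equivFin E e : ℕ), by have := (Fintype.equivFin E e).isLt; omega⟩
  have hk : ∀ e, (k e : ℕ) < Fintype.card E := fun e => (Fintype.equivFin E e).isLt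
  have hki : Function.Injective k := by
    intro e f hef
    have h1 : (k e : ℕ) = (k f : ℕ) := congrArg Fin.val hef
    have h2 : (Fintype.equivFin E e : ℕ) = (Fintype.equivFin E f : ℕ) := h1
    exact (Fintype.equivFin E).injective (Fin.ext h2)
  let P : PreDrawing src tgt :=
    { D := D × Fin (2 * (Fintype.card E + 1))
      X := X
      finD := inferInstance
      finX := inferInstance
      σ := σ'
      α := α'
      α_invol := by
        rintro ⟨d, i⟩
        rw [h, h, hα, Fin.rev_rev]
      α_ne := by
        rintro ⟨d, i⟩ hc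
        rw [h] at hc
        exact hne d (Prod.mk.inj hc).1
      planar := hp'
      pt := fun a => pt a.1
      pt_iff := fun a b => (hpt a.1 b.1).trans (hs' a b).symm
      loc := loc
      loc_inj := hloc
      route := fun e => (r e).map (fun d => (d, k e))
      route_walk := fun e => GB2_walk α pt α' h (k e) _ _ _ (hw e)
      route_inner := by
        intro e a ha v
        rw [← List.map_tail] at ha
        obtain ⟨d, hd, rfl⟩ := List.mem_map.1 ha
        exact hin e d hd v
      route_use := fun q => GB2_use (fun d i => (d, i)) (fun a => a.2) (fun _ _ => rfl)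
        (fun i a b hab => (Prod.mk.inj hab).1) α' (fun q => by
          obtain ⟨d, i⟩ := q
          rw [h]) rfl k hk hki r hnd q }
  have hL : ∀ q : P.D, P.Used q → P.pt q ≠ P.pt (P.α q) := by
    rintro ⟨a, i⟩ ⟨e, he⟩
    change pt a ≠ pt (α' (a, i)).1
    rw [h]
    change pt a ≠ pt (α a)
    rcases he with he | he
    · obtain ⟨d, hd, hde⟩ := List.mem_map.1 he
      have h1 : d = a := (Prod.mk.inj hde).1
      rw [← h1]
      exact hloop e d hd
    · have he' : α' (a, i) ∈ (r e).map (fun d => (d, k e)) := he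
      rw [h] at he'
      obtain ⟨d, hd, hde⟩ := List.mem_map.1 he'
      have h1 : d = α a := (Prod.mk.inj hde).1
      have h2 := hloop e d hd
      rw [h1, hα] at h2
      exact h2.symm
  refine (PreDrawing.crM_le_cost P hL).trans (le_of_eq ?_)
  unfold PreDrawing.cost
  refine Finset.sum_congr rfl fun x _ => ?_
  congr 1
  unfold PreDrawing.passes
  refine Finset.sum_congr rfl fun e _ => ?_
  change ((((r e).map (fun d => (d, k e))).tail).map (fun a => pt a.1)).count x = _
  rw [← List.map_tail, List.map_map]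
  rfl

end GB2

end Helper5.BD
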